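import Pool.Agent.Helper62.LH.StS

/-! Module COO of project LH: `d⋆φ = 0` in coordinates for `1`-forms. -/

set_option autoImplicit false

open Set Filter Topology MeasureTheory
open scoped ContDiff ENNReal

noncomputable section

namespace Pool.Agent.Helper67.LH

open Helper62.LH

theorem ap_one {l : ℕ} (h : 1 + l = l + 1) (u : Fin 1 → E (l + 1)) (w : Fin l → E (l + 1)) :
    ap h u w = Fin.cons (u 0) w := by
  unfold ap
  rw [Fin.append_left_eq_cons]
  funext i
  rfl

theorem vdet_ee {n : ℕ} : vdet (fun i : Fin n => (ee i : E n)) = 1 := by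
  unfold vdet
  have : (Matrix.of fun i j => (ee i : E n) j) = 1 := by
    ext i j
    simp only [Matrix.of_apply, ee, PiLp.single_apply, Matrix.one_apply]
    by_cases h : i = j
    · simp [h]
    · rw [if_neg h, if_neg (Ne.symm h)]
  rw [this, Matrix.det_one]

theorem dtz_cons (hDtz : StDtz) {l : ℕ} (v : E (l + 1)) (w : Fin (l + 1) → E (l + 1))
    (lam : Dl (l + 1)) :
    ∑ b : Fin (l + 1), (-1) ^ (b : ℕ) * (lam (w b) * vdet (Fin.cons v (b.removeNth w))) =
      lam v * vdet w := by
  have h := hDtz (l + 1) (Fin.cons v w) lam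
  rw [Fin.sum_univ_succ] at h
  have h1 : (fun i => (Fin.cons v w : Fin (l + 1 + 1) → E (l + 1)) ((0 : Fin (l + 1 + 1)).succAbove i))
      = w := by
    funext i
    rw [Fin.zero_succAbove, Fin.cons_succ]
  have h2 : ∀ b : Fin (l + 1),
      (fun i => (Fin.cons v w : Fin (l + 1 + 1) → E (l + 1)) (b.succ.succAbove i)) =
        (Fin.cons v (b.removeNth w) : Fin (l + 1) → E (l + 1)) := by
    intro b
    funext i
    refine Fin.cases ?_ (fun j => ?_) i
    · rw [Fin.succ_succAbove_zero, Fin.cons_zero, Fin.cons_zero]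
    · rw [Fin.succ_succAbove_succ, Fin.cons_succ, Fin.cons_succ]
      rfl
  rw [h1] at h
  simp only [h2, Fin.cons_zero, Fin.cons_succ, Fin.val_zero, pow_zero, one_mul, Fin.val_succ,
    pow_succ] at h
  have h3 : ∑ b : Fin (l + 1), (-1 : ℝ) ^ (b : ℕ) * -1 * (lam (w b) *
      vdet (Fin.cons v (b.removeNth w) : Fin (l + 1) → E (l + 1))) =
      -∑ b : Fin (l + 1), (-1) ^ (b : ℕ) * (lam (w b) * vdet (Fin.cons v (b.removeNth w))) := by
    rw [← Finset.sum_neg_distrib]
    refine Finset.sum_congr rfl fun b _ => ?_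
    ring
  rw [h3] at h
  linarith

theorem hCoo (hShp : StShp) (hDlv : StDlv) (hDtz : StDtz) : StCoo := by
  intro n l h g Γ hg hΓ φ τ θ hθ hθφ hτ hst hd x
  obtain rfl : n = l + 1 := by omega
  obtain ⟨-, -, hgi, -⟩ := hShp (l + 1) g Γ hg hΓ
  obtain ⟨hv, -, -⟩ := hDlv (l + 1) g Γ hg hΓ
  have hF : ∀ i, ContDiff ℝ ∞ (fun y => vol g y * ∑ j, gi g y i j * θ y (ee j)) := by
    intro i
    refine hv.mul (ContDiff.sum fun j _ => (hgi i j).mul ?_)
    exact hθ.clm_apply contDiff_const
  have hFd : ∀ i, DifferentiableAt ℝ (fun y => vol g y * ∑ j, gi g y i j * θ y (ee j)) x :=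
    fun i => ((hF i).differentiable (by simp)).differentiableAt
  have hτe : ∀ y w, τ y w = ∑ i, (vol g y * ∑ j, gi g y i j * θ y (ee j)) *
      vdet (Fin.cons (ee i) w) := by
    intro y w
    rw [hst y w]
    have e1 : ∀ f : (Fin 1 → Fin (l + 1)) → ℝ, ∑ I, f I = ∑ i, f (fun _ => i) := by
      intro f
      refine Fintype.sum_equiv (Equiv.funUnique (Fin 1) (Fin (l + 1))) _ _ fun I => ?_
      congr 1
      funext a
      rw [Subsingleton.elim a 0]
      rfl
    rw [e1]
    simp only [e1, Nat.factorial_one, Nat.cast_one, div_one, Finset.univ_unique,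
      Finset.prod_singleton]
    rw [Finset.mul_sum]
    refine Finset.sum_congr rfl fun i _ => ?_
    rw [ap_one, mul_assoc, Finset.sum_mul]
    congr 1
    refine Finset.sum_congr rfl fun j _ => ?_
    rw [hθφ, mul_assoc]
    congr 3
    funext a
    rw [Subsingleton.elim a 0]
    rfl
  have hτd : DifferentiableAt ℝ τ x := (hτ.differentiable (by simp)).differentiableAt
  have h1 := extDeriv_apply hτd (fun i => (ee i : E (l + 1)))
  rw [hd x] at h1
  change (0 : ℝ) = _ at h1
  have h2 : ∀ b : Fin (l + 1), fderiv ℝ (fun y => τ y (b.removeNth fun i => (ee i : E (l + 1)))) x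
      (ee b) = ∑ i, fderiv ℝ (fun y => vol g y * ∑ j, gi g y i j * θ y (ee j)) x (ee b) *
        vdet (Fin.cons (ee i) (b.removeNth fun i => (ee i : E (l + 1)))) := by
    intro b
    have e : (fun y => τ y (b.removeNth fun i => (ee i : E (l + 1)))) =
        fun y => ∑ i, (vol g y * ∑ j, gi g y i j * θ y (ee j)) *
          vdet (Fin.cons (ee i) (b.removeNth fun i => (ee i : E (l + 1)))) := by
      funext y
      exact hτe y _
    rw [e, fderiv_fun_sum fun i _ => (hFd i).mul_const _]
    rw [ContinuousLinearMap.sum_apply]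
    refine Finset.sum_congr rfl fun i _ => ?_
    rw [fderiv_mul_const (hFd i)]
    rw [ContinuousLinearMap.smul_apply, smul_eq_mul, mul_comm]
  simp only [h2] at h1
  have h3 : ∀ i, ∑ b : Fin (l + 1), (-1 : ℝ) ^ (b : ℕ) *
      (fderiv ℝ (fun y => vol g y * ∑ j, gi g y i j * θ y (ee j)) x (ee b) *
        vdet (Fin.cons (ee i) (b.removeNth fun i => (ee i : E (l + 1))))) =
      fderiv ℝ (fun y => vol g y * ∑ j, gi g y i j * θ y (ee j)) x (ee i) := by
    intro i
    have := dtz_cons hDtz (ee i) (fun i => (ee i : E (l + 1)))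
      (fderiv ℝ (fun y => vol g y * ∑ j, gi g y i j * θ y (ee j)) x)
    rw [vdet_ee, mul_one] at this
    exact this
  rw [← Finset.sum_congr rfl fun i _ => h3 i, Finset.sum_comm, h1]
  refine Finset.sum_congr rfl fun b _ => ?_
  rw [← Finset.mul_sum, zsmul_eq_mul, Int.cast_pow, Int.cast_neg, Int.cast_one]

end Pool.Agent.Helper67.LH
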