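import Pool.Agent.Helper62.LH.StV

/-!
# Project LH, module LIP: Lebesgue measure of a Lipschitz image
-/

set_option autoImplicit false

namespace Pool.Agent.Helper67.LH

open Helper62.LH
open MeasureTheory MeasureTheory.Measure
open scoped ENNReal

theorem hLip : StLip := by
  intro n S ψ L hL
  have key : (volume : Measure (EuclideanSpace ℝ (Fin n))) =
      addHaarScalarFactor (volume : Measure (EuclideanSpace ℝ (Fin n))) μH[(n : ℕ)] • μH[(n : ℕ)] :=
    isAddLeftInvariant_eq_smul _ _
  have h1 := hL.hausdorffMeasure_image_le (d := (n : ℝ)) (Nat.cast_nonneg n)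
  rw [ENNReal.rpow_natCast] at h1
  rw [key]
  rw [Measure.smul_apply, Measure.smul_apply]
  simp only [ENNReal.smul_def, smul_eq_mul]
  rw [mul_left_comm]
  gcongr

end Pool.Agent.Helper67.LH
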