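import Pool.Agent.Helper62.LH.StA

/-!
# Project LH, module UT: continuity and local bounds
-/

set_option autoImplicit false

open Set Filter Topology MeasureTheory
open scoped ContDiff ENNReal

namespace Pool.Agent.Helper67.LH

open Helper62.LH

theorem expand {n : ℕ} (v : E n) : v = ∑ i, v i • ee i := by
  ext j
  simp [ee, Finset.sum_apply, Pi.single_apply]

theorem norm_ee {n : ℕ} (i : Fin n) : ‖(ee i : E n)‖ = 1 := by
  simp [ee]

theorem gm_posDef {n : ℕ} (g : E n → Bl n) (hg : IsMet g) (x : E n) : (gm g x).PosDef := by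
  refine Matrix.PosDef.of_dotProduct_mulVec_pos ?_ ?_
  · rw [Matrix.IsHermitian, Matrix.conjTranspose_eq_transpose_of_trivial]
    ext i j
    exact hg.symm x _ _
  · intro v hv
    set w : E n := WithLp.toLp 2 v with hw
    have hw0 : w ≠ 0 := by
      intro h
      apply hv
      funext i
      have := congrArg (fun z : E n => z i) h
      exact this
    have h := hg.pos x w hw0
    have hbil : g x w w = ∑ i, ∑ j, w i * w j * g x (ee i) (ee j) := by
      conv_lhs => rw [expand w]
      simp only [map_sum, map_smul, sum_apply, smul_apply, smul_eq_mul, Finset.mul_sum]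
      rw [Finset.sum_comm]
      refine Finset.sum_congr rfl fun i _ => Finset.sum_congr rfl fun j _ => ?_
      ring
    rw [hbil] at h
    have e : star v ⬝ᵥ (gm g x).mulVec v = ∑ i, ∑ j, w i * w j * g x (ee i) (ee j) := by
      simp only [dotProduct, Matrix.mulVec, Finset.mul_sum]
      refine Finset.sum_congr rfl fun i _ => Finset.sum_congr rfl fun j _ => ?_
      show v i * (g x (ee i) (ee j) * v j) = v i * v j * g x (ee i) (ee j)
      ring
    rw [e]
    exact h

/-- the sum of the absolute values of the entries of the inverse metric -/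
noncomputable def Sg {n : ℕ} (g : E n → Bl n) (x : E n) : ℝ := ∑ i, ∑ j, |gi g x i j|

theorem ip_le_comp {n : ℕ} (g : E n → Bl n) (x : E n) (a : Dl n) :
    |ip g x a a| ≤ Sg g x * ∑ k, a (ee k) ^ 2 := by
  unfold ip trg Sg
  rw [Finset.sum_mul]
  refine (Finset.abs_sum_le_sum_abs _ _).trans (Finset.sum_le_sum fun i _ => ?_)
  rw [Finset.sum_mul]
  refine (Finset.abs_sum_le_sum_abs _ _).trans (Finset.sum_le_sum fun j _ => ?_)
  rw [abs_mul]
  refine mul_le_mul_of_nonneg_left ?_ (abs_nonneg _)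
  have h1 : |a (ee i) * a (ee j)| ≤ (a (ee i) ^ 2 + a (ee j) ^ 2) / 2 := by
    rw [abs_le]
    constructor <;> nlinarith [sq_nonneg (a (ee i) + a (ee j)), sq_nonneg (a (ee i) - a (ee j))]
  have h2 : ∀ k, a (ee k) ^ 2 ≤ ∑ k, a (ee k) ^ 2 := fun k =>
    Finset.single_le_sum (f := fun k => a (ee k) ^ 2) (fun k _ => sq_nonneg _) (Finset.mem_univ k)
  linarith [h2 i, h2 j]

theorem ap_le {n : ℕ} (a : Dl n) (i : Fin n) : |a (ee i)| ≤ ‖a‖ := by
  have := a.le_opNorm (ee i)
  rwa [norm_ee, mul_one, Real.norm_eq_abs] at this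

theorem bl_le {n : ℕ} (B : Bl n) (i j : Fin n) : |B (ee i) (ee j)| ≤ ‖B‖ := by
  have := B.le_opNorm₂ (ee i) (ee j)
  rwa [norm_ee, norm_ee, mul_one, mul_one, Real.norm_eq_abs] at this

theorem ip_le_norm {n : ℕ} (g : E n → Bl n) (x : E n) (a : Dl n) :
    ip g x a a ≤ Sg g x * ‖a‖ ^ 2 := by
  refine (le_abs_self _).trans ?_
  unfold ip trg Sg
  rw [Finset.sum_mul]
  refine (Finset.abs_sum_le_sum_abs _ _).trans (Finset.sum_le_sum fun i _ => ?_)
  rw [Finset.sum_mul]
  refine (Finset.abs_sum_le_sum_abs _ _).trans (Finset.sum_le_sum fun j _ => ?_)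
  rw [abs_mul, abs_mul, pow_two]
  have h1 := ap_le a i
  have h2 := ap_le a j
  gcongr

theorem nB_le_norm {n : ℕ} (g : E n → Bl n) (x : E n) (B : Bl n) :
    nB g x (fun u v => B u v) ≤ Sg g x ^ 2 * ‖B‖ ^ 2 := by
  have hS : 0 ≤ Sg g x := Finset.sum_nonneg fun i _ => Finset.sum_nonneg fun j _ => abs_nonneg _
  refine (le_abs_self _).trans ?_
  unfold nB
  have hin : ∀ u u' : Fin n, |trg g x (fun v v' => B (ee u) v * B (ee u') v')| ≤
      Sg g x * ‖B‖ ^ 2 := by
    intro u u'
    unfold trg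
    conv_rhs => rw [Sg, Finset.sum_mul]
    refine (Finset.abs_sum_le_sum_abs _ _).trans (Finset.sum_le_sum fun i _ => ?_)
    rw [Finset.sum_mul]
    refine (Finset.abs_sum_le_sum_abs _ _).trans (Finset.sum_le_sum fun j _ => ?_)
    rw [abs_mul, abs_mul, pow_two]
    have h1 := bl_le B u i
    have h2 := bl_le B u' j
    gcongr
  have h3 : Sg g x ^ 2 * ‖B‖ ^ 2 = ∑ i, ∑ j, |gi g x i j| * (Sg g x * ‖B‖ ^ 2) := by
    simp only [← Finset.sum_mul]
    rw [← Sg]
    ring
  rw [h3]
  conv_lhs => rw [trg]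
  refine (Finset.abs_sum_le_sum_abs _ _).trans (Finset.sum_le_sum fun i _ => ?_)
  refine (Finset.abs_sum_le_sum_abs _ _).trans (Finset.sum_le_sum fun j _ => ?_)
  rw [abs_mul]
  exact mul_le_mul_of_nonneg_left (hin i j) (abs_nonneg _)

/-- a positive continuous function is bounded below on compact sets -/
theorem pos_below {n : ℕ} (h : E n → ℝ) (hc : Continuous h) (hp : ∀ x, 0 < h x)
    (K : Set (E n)) (hK : IsCompact K) : ∃ c : ℝ, 0 < c ∧ ∀ x ∈ K, c ≤ h x := by
  rcases K.eq_empty_or_nonempty with rfl | hne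
  · exact ⟨1, one_pos, fun x hx => absurd hx (by simp)⟩
  · obtain ⟨x₀, -, hx₀⟩ := hK.exists_isMinOn hne hc.continuousOn
    exact ⟨h x₀, hp x₀, fun x hx => hx₀ hx⟩

theorem bd_above {n : ℕ} (h : E n → ℝ) (hc : Continuous h)
    (K : Set (E n)) (hK : IsCompact K) : ∃ C : ℝ, 0 < C ∧ ∀ x ∈ K, h x ≤ C := by
  obtain ⟨C, hC⟩ := hK.exists_bound_of_continuousOn hc.continuousOn
  refine ⟨|C| + 1, by positivity, fun x hx => ?_⟩
  have h1 := hC x hx
  rw [Real.norm_eq_abs] at h1
  have h2 := le_abs_self (h x)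
  have h3 := le_abs_self C
  linarith

theorem low_ip {n : ℕ} (g : E n → Bl n) (x : E n) (a : Dl n)
    (h0 : 0 ≤ ip g x a a) (h : ∀ v : E n, |a v| ≤ √(ip g x a a) * nr g x v) :
    ‖a‖ ^ 2 ≤ ip g x a a * ‖g x‖ := by
  have hgle : ∀ v : E n, g x v v ≤ ‖g x‖ * ‖v‖ * ‖v‖ := by
    intro v
    have := (g x).le_opNorm₂ v v
    exact (le_abs_self _).trans this
  have hG0 : 0 ≤ ‖g x‖ := norm_nonneg (g x)
  generalize ‖g x‖ = G at hgle hG0 ⊢
  have h1 : ‖a‖ ≤ √(ip g x a a) * √G := by
    apply a.opNorm_le_bound (by positivity)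
    intro v
    rw [Real.norm_eq_abs]
    refine (h v).trans ?_
    rw [mul_assoc]
    refine mul_le_mul_of_nonneg_left ?_ (Real.sqrt_nonneg _)
    unfold nr
    calc √(g x v v) ≤ √(G * ‖v‖ * ‖v‖) := Real.sqrt_le_sqrt (hgle v)
      _ = √G * ‖v‖ := by
        rw [mul_assoc, Real.sqrt_mul hG0, Real.sqrt_mul_self (norm_nonneg _)]
  calc ‖a‖ ^ 2 ≤ (√(ip g x a a) * √G) ^ 2 := by gcongr
    _ = ip g x a a * G := by
      rw [mul_pow, Real.sq_sqrt h0, Real.sq_sqrt hG0]

theorem hUt (hChe : StChe) (hShp : StShp) (hIna : StIna) : StUt := by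
  intro n g hg
  obtain ⟨Γ, hΓ⟩ := hChe n g hg
  obtain ⟨-, -, hgi, -⟩ := hShp n g Γ hg hΓ
  have hgic : ∀ i j, Continuous (fun x => gi g x i j) := fun i j => (hgi i j).continuous
  have hgc : Continuous g := hg.smooth.continuous
  have hip : ∀ θ η : E n → Dl n, Continuous θ → Continuous η →
      Continuous (fun x => ip g x (θ x) (η x)) := by
    intro θ η hθ hη
    unfold ip trg
    refine continuous_finsetSum _ fun i _ => continuous_finsetSum _ fun j _ => ?_
    exact (hgic i j).mul ((hθ.clm_apply continuous_const).mul (hη.clm_apply continuous_const))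
  have hiB : ∀ B C : E n → Bl n, Continuous B → Continuous C →
      Continuous (fun x => iB g x (fun u v => B x u v) (fun u v => C x u v)) := by
    intro B C hB hC
    unfold iB trg
    refine continuous_finsetSum _ fun i _ => continuous_finsetSum _ fun j _ => ?_
    refine (hgic i j).mul (continuous_finsetSum _ fun k _ => continuous_finsetSum _ fun l _ => ?_)
    exact (hgic k l).mul (((hB.clm_apply continuous_const).clm_apply continuous_const).mul
      ((hC.clm_apply continuous_const).clm_apply continuous_const))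
  have hgm : Continuous (gm g) := by
    refine continuous_matrix fun i j => ?_
    exact (hgc.clm_apply continuous_const).clm_apply continuous_const
  have hvol : Continuous (vol g) := by
    unfold vol
    exact Real.continuous_sqrt.comp (Continuous.matrix_det hgm)
  have hvpos : ∀ x, 0 < vol g x := fun x => Real.sqrt_pos.2 (gm_posDef g hg x).det_pos
  have hSc : Continuous (Sg g) := by
    unfold Sg
    exact continuous_finsetSum _ fun i _ => continuous_finsetSum _ fun j _ => (hgic i j).abs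
  have hS0 : ∀ x, 0 ≤ Sg g x := fun x =>
    Finset.sum_nonneg fun i _ => Finset.sum_nonneg fun j _ => abs_nonneg _
  have hbd : ∀ K, IsCompact K → ∃ c C : ℝ, 0 < c ∧ 0 < C ∧ ∀ x ∈ K, c ≤ vol g x ∧ vol g x ≤ C ∧
      (∀ a : Dl n, c * ‖a‖ ^ 2 ≤ ip g x a a ∧ ip g x a a ≤ C * ‖a‖ ^ 2) ∧
      ∀ B : Bl n, nB g x (fun u v => B u v) ≤ C * ‖B‖ ^ 2 := by
    intro K hK
    obtain ⟨c1, hc1, hc1'⟩ := pos_below (vol g) hvol hvpos K hK
    obtain ⟨C1, hC1, hC1'⟩ := bd_above (vol g) hvol K hK
    obtain ⟨C2, hC2, hC2'⟩ := bd_above (Sg g) hSc K hK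
    have hgn : Continuous (fun x => ‖g x‖) := by
      have h0 : Continuous (fun B : Bl n => ‖B‖) := by
        have h1 := @continuous_norm (Bl n) _
        exact h1
      exact h0.comp hgc
    obtain ⟨C3, hC3, hC3'⟩ := bd_above (fun x => ‖g x‖) hgn K hK
    refine ⟨min c1 (1 / C3), C1 + C2 + C2 ^ 2, lt_min hc1 (by positivity), by positivity,
      fun x hx => ⟨(min_le_left _ _).trans (hc1' x hx), ?_, fun a => ⟨?_, ?_⟩, fun B => ?_⟩⟩
    · have := hC1' x hx
      nlinarith [sq_nonneg C2]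
    · have h1 := low_ip g x a ((hIna n g hg x).1 a) ((hIna n g hg x).2.2.2.2.1 a)
      have h2 : min c1 (1 / C3) * ‖a‖ ^ 2 ≤ 1 / C3 * ‖a‖ ^ 2 := by
        gcongr
        exact min_le_right _ _
      refine h2.trans ?_
      rw [one_div, inv_mul_le_iff₀ hC3]
      refine h1.trans ?_
      rw [mul_comm]
      exact mul_le_mul_of_nonneg_right (hC3' x hx) ((hIna n g hg x).1 a)
    · refine (ip_le_norm g x a).trans ?_
      have h1 := hC2' x hx
      have h2 : Sg g x ≤ C1 + C2 + C2 ^ 2 := by nlinarith [sq_nonneg C2]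
      gcongr
    · refine (nB_le_norm g x B).trans ?_
      have h1 := hC2' x hx
      have h2 : Sg g x ^ 2 ≤ C2 ^ 2 := by
        have := hS0 x
        gcongr
      have h3 : Sg g x ^ 2 ≤ C1 + C2 + C2 ^ 2 := by linarith
      gcongr
  refine ⟨hip, hiB, hvol, hvpos, hbd, ?_⟩
  intro θ
  constructor
  · intro hL
    have hm : ∀ j, AEStronglyMeasurable (fun x => θ x (ee j)) volume := fun j => (hL j).1
    refine ⟨?_, ?_⟩
    · have h1 : θ = fun x => ∑ j, (θ x (ee j)) • (EuclideanSpace.proj j : Dl n) := by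
        funext x
        ext v
        conv_lhs => rw [expand v]
        rw [map_sum, ContinuousLinearMap.sum_apply]
        refine Finset.sum_congr rfl fun j _ => ?_
        rw [map_smul, ContinuousLinearMap.smul_apply, smul_eq_mul, smul_eq_mul, mul_comm]
        rfl
      rw [h1]
      exact Finset.aestronglyMeasurable_fun_sum _ fun j _ => (hm j).smul_const _
    · intro K hK
      obtain ⟨C1, hC1, hC1'⟩ := bd_above (vol g) hvol K hK
      obtain ⟨C2, hC2, hC2'⟩ := bd_above (Sg g) hSc K hK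
      have hmeas : AEStronglyMeasurable (fun x => ip g x (θ x) (θ x) * vol g x) volume := by
        refine AEStronglyMeasurable.mul ?_ hvol.aestronglyMeasurable
        unfold ip trg
        refine Finset.aestronglyMeasurable_fun_sum _ fun i _ =>
          Finset.aestronglyMeasurable_fun_sum _ fun j _ => ?_
        exact (hgic i j).aestronglyMeasurable.mul ((hm i).mul (hm j))
      have hint : IntegrableOn (fun x => C2 * C1 * ∑ k, θ x (ee k) ^ 2) K :=
        (integrable_finsetSum _ fun k _ => (hL k).2 K hK).const_mul _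
      refine Integrable.mono' hint hmeas.restrict ?_
      refine ae_restrict_of_forall_mem hK.measurableSet fun x hx => ?_
      rw [Real.norm_eq_abs, abs_mul, abs_of_pos (hvpos x)]
      have h1 := ip_le_comp g x (θ x)
      have h2 := hC2' x hx
      have h3 := hC1' x hx
      have h4 : 0 ≤ ∑ k, θ x (ee k) ^ 2 := Finset.sum_nonneg fun k _ => sq_nonneg _
      calc |ip g x (θ x) (θ x)| * vol g x ≤ (Sg g x * ∑ k, θ x (ee k) ^ 2) * vol g x := by
            have := (hvpos x).le
            gcongr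
        _ ≤ (C2 * ∑ k, θ x (ee k) ^ 2) * C1 := by
            have := (hvpos x).le
            gcongr
        _ = C2 * C1 * ∑ k, θ x (ee k) ^ 2 := by ring
  · rintro ⟨hθ, hint⟩ j
    have hmj : AEStronglyMeasurable (fun x => θ x (ee j)) volume :=
      (ContinuousLinearMap.apply ℝ ℝ (ee j : E n)).continuous.comp_aestronglyMeasurable hθ
    refine ⟨hmj, fun K hK => ?_⟩
    obtain ⟨c, C, hc, -, hcC⟩ := hbd K hK
    have hI : IntegrableOn (fun x => 1 / c * (1 / c) * (ip g x (θ x) (θ x) * vol g x)) K :=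
      (hint K hK).const_mul _
    refine Integrable.mono' hI (hmj.pow 2).restrict ?_
    refine ae_restrict_of_forall_mem hK.measurableSet fun x hx => ?_
    obtain ⟨h1, -, h2, -⟩ := hcC x hx
    have h3 := (h2 (θ x)).1
    have h4 := ap_le (θ x) j
    rw [Real.norm_eq_abs, abs_of_nonneg (sq_nonneg _)]
    have h5 : θ x (ee j) ^ 2 ≤ ‖θ x‖ ^ 2 := by
      rw [← sq_abs]
      gcongr
    have h6 : ‖θ x‖ ^ 2 ≤ 1 / c * ip g x (θ x) (θ x) := by
      rw [one_div, le_inv_mul_iff₀ hc]
      exact h3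
    have h7 : 0 ≤ ip g x (θ x) (θ x) := (hIna n g hg x).1 _
    have h8 : 1 ≤ 1 / c * vol g x := by
      rw [one_div, le_inv_mul_iff₀ hc, mul_one]
      exact h1
    calc θ x (ee j) ^ 2 ≤ 1 / c * ip g x (θ x) (θ x) := h5.trans h6
      _ = (1 / c * ip g x (θ x) (θ x)) * 1 := (mul_one _).symm
      _ ≤ (1 / c * ip g x (θ x) (θ x)) * (1 / c * vol g x) := by
          gcongr
      _ = 1 / c * (1 / c) * (ip g x (θ x) (θ x) * vol g x) := by ring

end Pool.Agent.Helper67.LH
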